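import Mathlib

set_option autoImplicit false

/-!
# The largest diameter of a connected `k`-conservative graph

We prove `D(2) = 2`, `D(3) = 4`, `D(4) = 6` and `D(k) = 3k - 7` for all `k ≥ 5`.
-/

namespace Pool.Agent.Results.MP_2cf482_co.MaxDiameter

section Defs

variable {V : Type*}

/-- The vertex set `A` dominates the vertex `v`. -/
def Dom (G : SimpleGraph V) (A : Set V) (v : V) : Prop := v ∈ A ∨ ∃ a ∈ A, G.Adj a v

/-- `A` precisely dominates `B`: it dominates every vertex of `B` and no other vertex. -/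
def Precise (G : SimpleGraph V) (A B : Set V) : Prop := ∀ v, Dom G A v ↔ v ∈ B

/-- `c` is the domination number of `G`. -/
def IsDomNumber (G : SimpleGraph V) (c : ℕ) : Prop :=
  IsLeast {n | ∃ A : Finset V, A.card = n ∧ ∀ v, Dom G (↑A) v} c

/-- `G` is `k`-conservative. -/
def Conservative (G : SimpleGraph V) (k : ℕ) : Prop :=
  IsDomNumber G (k - 1) ∧ ∀ x y : V, x ≠ y → ¬ G.Adj x y → ∃ S : Finset V, S.card = k - 2 ∧
    (Precise G (insert x (↑S : Set V)) {y}ᶜ ∨ Precise G (insert y (↑S : Set V)) {x}ᶜ)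

end Defs

/-- `d` is the largest diameter of a connected `k`-conservative graph (finite simple graphs). -/
def IsMaxDiam (k d : ℕ) : Prop :=
  IsGreatest {d | ∃ (V : Type) (_ : Fintype V) (G : SimpleGraph V),
    G.Connected ∧ Conservative G k ∧ G.diam = d} d

/-! ### Upper bound -/

section Upper

variable {V : Type*} {G : SimpleGraph V}

/-- Level functions: adjacent vertices have levels differing by at most one. -/
def Lip (G : SimpleGraph V) (l : V → ℕ) : Prop := ∀ u v, G.Adj u v → l u ≤ l v + 1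

theorem dom_level {l : V → ℕ} (hl : Lip G l) {A : Set V} {v : V} (h : Dom G A v) :
    ∃ a ∈ A, l a ≤ l v + 1 ∧ l v ≤ l a + 1 := by
  rcases h with h | ⟨a, ha, hav⟩
  · exact ⟨v, h, by omega, by omega⟩
  · exact ⟨a, ha, hl _ _ hav, hl _ _ hav.symm⟩

theorem pigeon (A : Finset V) (m : ℕ) (hA : A.card ≤ m) (h : V → ℕ)
    (hc : ∀ t < m, ∃ a ∈ A, h a = t) :
    (∀ a ∈ A, h a < m) ∧ (∀ a ∈ A, ∀ b ∈ A, h a = h b → a = b) := by
  classical
  have hsub : Finset.range m ⊆ A.image h := by
    intro t ht
    obtain ⟨a, ha, hat⟩ := hc t (Finset.mem_range.1 ht)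
    exact Finset.mem_image.2 ⟨a, ha, hat⟩
  have h1 : m ≤ (A.image h).card := by
    simpa using Finset.card_le_card hsub
  have h2 : (A.image h).card ≤ A.card := Finset.card_image_le
  have heq : Finset.range m = A.image h :=
    Finset.eq_of_subset_of_card_le hsub (by simpa using (h2.trans hA))
  have hinj : (A.image h).card = A.card := by omega
  have hinj' := Finset.card_image_iff.1 hinj
  constructor
  · intro a ha
    have : h a ∈ A.image h := Finset.mem_image.2 ⟨a, ha, rfl⟩
    rw [← heq] at this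
    exact Finset.mem_range.1 this
  · intro a ha b hb hab
    exact hinj' (Finset.mem_coe.2 ha) (Finset.mem_coe.2 hb) hab

/-- Group index in the first case. -/
def gX (l : ℕ) : ℕ := if l ≤ 1 then 0 else if l = 2 then 1 else l / 3 + 1

/-- Group index in the second case. -/
def gY (l : ℕ) : ℕ := if l ≤ 1 then 0 else if l ≤ 4 then 1 else if l = 5 then 2 else l / 3 + 1

theorem coverX {l : V → ℕ} (hl : Lip G l) (m : ℕ) (A : Finset V)
    (x w : V) (hx : x ∈ A) (hlx : l x = 2) (hlw : l w = 5)
    (hdom : ∀ v, v ≠ w → Dom G (↑A) v) (hlev : ∀ i, i + 5 ≤ 3 * m ∨ i ≤ 1 → ∃ v, l v = i) :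
    ∀ t < m, ∃ a ∈ A, gX (l a) = t := by
  intro t ht
  rcases Nat.lt_or_ge t 1 with h0 | h0
  · obtain ⟨v, hv⟩ := hlev 0 (Or.inr (by omega))
    obtain ⟨a, ha, h1, h2⟩ := dom_level hl (hdom v (by rintro rfl; omega))
    refine ⟨a, ha, ?_⟩
    unfold gX
    rw [if_pos (by omega)]
    omega
  rcases Nat.lt_or_ge t 2 with h1 | h1
  · refine ⟨x, hx, ?_⟩
    unfold gX
    rw [if_neg (by omega), if_pos hlx]
    omega
  · obtain ⟨v, hv⟩ := hlev (3 * t - 2) (Or.inl (by omega))
    obtain ⟨a, ha, h2, h3⟩ := dom_level hl (hdom v (by rintro rfl; omega))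
    refine ⟨a, ha, ?_⟩
    unfold gX
    rw [if_neg (by omega), if_neg (by omega)]
    omega

theorem coverY {l : V → ℕ} (hl : Lip G l) (m : ℕ) (A : Finset V)
    (y w : V) (hy : y ∈ A) (hly : l y = 5) (hlw : l w = 2)
    (hdom : ∀ v, v ≠ w → Dom G (↑A) v) (hlev : ∀ i, i + 5 ≤ 3 * m ∨ i ≤ 3 → ∃ v, l v = i) :
    ∀ t < m, ∃ a ∈ A, gY (l a) = t := by
  intro t ht
  rcases Nat.lt_or_ge t 1 with h0 | h0
  · obtain ⟨v, hv⟩ := hlev 0 (Or.inr (by omega))
    obtain ⟨a, ha, h1, h2⟩ := dom_level hl (hdom v (by rintro rfl; omega))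
    refine ⟨a, ha, ?_⟩
    unfold gY
    rw [if_pos (by omega)]
    omega
  rcases Nat.lt_or_ge t 2 with h1 | h1
  · obtain ⟨v, hv⟩ := hlev 3 (Or.inr (by omega))
    obtain ⟨a, ha, h2, h3⟩ := dom_level hl (hdom v (by rintro rfl; omega))
    refine ⟨a, ha, ?_⟩
    unfold gY
    rw [if_neg (by omega), if_pos (by omega)]
    omega
  rcases Nat.lt_or_ge t 3 with h2 | h2
  · refine ⟨y, hy, ?_⟩
    unfold gY
    rw [if_neg (by omega), if_neg (by omega), if_pos hly]
    omega
  · obtain ⟨v, hv⟩ := hlev (3 * t - 2) (Or.inl (by omega))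
    obtain ⟨a, ha, h3, h4⟩ := dom_level hl (hdom v (by rintro rfl; omega))
    refine ⟨a, ha, ?_⟩
    unfold gY
    rw [if_neg (by omega), if_neg (by omega), if_neg (by omega)]
    omega

/-- Consequence of the counting: all elements of `A` have level at most `3m-4`, and at most one of
them has level at least `3m-6`. -/
theorem key {l : V → ℕ} (hl : Lip G l) (m : ℕ) (hm : 3 ≤ m) (A : Finset V) (hA : A.card ≤ m)
    (u w : V) (hu : u ∈ A) (huw : (l u = 2 ∧ l w = 5) ∨ (l u = 5 ∧ l w = 2))
    (hdom : ∀ v, v ≠ w → Dom G (↑A) v) (hlev : ∀ i, i + 3 ≤ 3 * m → ∃ v, l v = i) :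
    (∀ a ∈ A, l a + 4 ≤ 3 * m) ∧
    (4 ≤ m → ∀ a ∈ A, ∀ b ∈ A, 3 * m ≤ l a + 6 → 3 * m ≤ l b + 6 → a = b) := by
  rcases huw with ⟨h1, h2⟩ | ⟨h1, h2⟩
  · have hc := coverX hl m A u w hu h1 h2 hdom (fun i hi => hlev i (by omega))
    obtain ⟨p1, p2⟩ := pigeon A m hA (fun a => gX (l a)) hc
    have hle : ∀ a ∈ A, l a + 4 ≤ 3 * m := by
      intro a ha
      have := p1 a ha
      simp only [gX] at this
      split_ifs at this <;> omega
    refine ⟨hle, fun hm4 a ha b hb ha6 hb6 => p2 a ha b hb ?_⟩
    have h3 := hle a ha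
    have h4 := hle b hb
    simp only [gX]
    rw [if_neg (by omega), if_neg (by omega), if_neg (by omega), if_neg (by omega)]
    omega
  · have hc := coverY hl m A u w hu h1 h2 hdom (fun i hi => hlev i (by omega))
    obtain ⟨p1, p2⟩ := pigeon A m hA (fun a => gY (l a)) hc
    have hle : ∀ a ∈ A, l a + 4 ≤ 3 * m := by
      intro a ha
      have := p1 a ha
      simp only [gY] at this
      split_ifs at this <;> omega
    refine ⟨hle, fun hm4 a ha b hb ha6 hb6 => p2 a ha b hb ?_⟩
    have h3 := hle a ha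
    have h4 := hle b hb
    simp only [gY]
    rw [if_neg (by omega), if_neg (by omega), if_neg (by omega), if_neg (by omega),
      if_neg (by omega), if_neg (by omega)]
    omega

/-- From a conservative graph with nonempty levels `2` and `5` extract a set as in `key`. -/
theorem extract {l : V → ℕ} (hl : Lip G l) (m : ℕ) (hm : 1 ≤ m) (hG : Conservative G (m + 1))
    (h2 : ∃ v, l v = 2) (h5 : ∃ v, l v = 5) :
    ∃ (A : Finset V) (u w : V), A.card ≤ m ∧ u ∈ A ∧
      ((l u = 2 ∧ l w = 5) ∨ (l u = 5 ∧ l w = 2)) ∧ (∀ v, v ≠ w → Dom G (↑A) v) := by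
  classical
  obtain ⟨x, hx⟩ := h2
  obtain ⟨y, hy⟩ := h5
  have hne : x ≠ y := by rintro rfl; omega
  have hna : ¬ G.Adj x y := by
    intro h
    have := hl _ _ h.symm
    omega
  obtain ⟨S, hS, h | h⟩ := hG.2 x y hne hna
  · refine ⟨insert x S, x, y, ?_, Finset.mem_insert_self _ _, Or.inl ⟨hx, hy⟩, ?_⟩
    · have := Finset.card_insert_le x S
      omega
    · intro v hv
      have := (h v).2 hv
      rwa [Finset.coe_insert]
  · refine ⟨insert y S, y, x, ?_, Finset.mem_insert_self _ _, Or.inr ⟨hy, hx⟩, ?_⟩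
    · have := Finset.card_insert_le y S
      omega
    · intro v hv
      have := (h v).2 hv
      rwa [Finset.coe_insert]

/-- There is no vertex of level `3m-2`, for `m ≥ 3`. -/
theorem no_level {l : V → ℕ} (hl : Lip G l) (m : ℕ) (hm : 3 ≤ m) (hG : Conservative G (m + 1))
    (hlev : ∀ i, i + 2 ≤ 3 * m → ∃ v, l v = i) : False := by
  obtain ⟨A, u, w, hA, hu, huw, hdom⟩ := extract hl m (by omega) hG (hlev 2 (by omega))
    (hlev 5 (by omega))
  obtain ⟨h1, -⟩ := key hl m hm A hA u w hu huw hdom (fun i hi => hlev i (by omega))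
  obtain ⟨z, hz⟩ := hlev (3 * m - 2) (by omega)
  obtain ⟨a, ha, h2, h3⟩ := dom_level hl (hdom z (by rintro rfl; omega))
  have := h1 a ha
  omega

/-- For `m = 2` there is no vertex of level `5`. -/
theorem no_level_two {l : V → ℕ} (hl : Lip G l) (hG : Conservative G 3)
    (hlev : ∀ i, i ≤ 5 → ∃ v, l v = i) : False := by
  obtain ⟨A, u, w, hA, hu, huw, hdom⟩ := extract hl 2 (by omega) hG (hlev 2 (by omega))
    (hlev 5 (by omega))
  rcases huw with ⟨h1, h2⟩ | ⟨h1, h2⟩
  · have hc := coverX hl 2 A u w hu h1 h2 hdom (fun i hi => hlev i (by omega))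
    obtain ⟨p1, p2⟩ := pigeon A 2 hA (fun a => gX (l a)) hc
    obtain ⟨z, hz⟩ := hlev 4 (by omega)
    obtain ⟨a, ha, h3, h4⟩ := dom_level hl (hdom z (by rintro rfl; omega))
    have := p1 a ha
    simp only [gX] at this
    split_ifs at this <;> omega
  · have hc := coverY hl 2 A u w hu h1 h2 hdom (fun i hi => hlev i (by omega))
    obtain ⟨p1, p2⟩ := pigeon A 2 hA (fun a => gY (l a)) hc
    have := p1 u hu
    simp only [gY] at this
    split_ifs at this <;> omega

/-- For `m ≥ 4`: a vertex of level `3m-4` dominating the last three levels. -/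
theorem exists_beta {l : V → ℕ} (hl : Lip G l) (m : ℕ) (hm : 4 ≤ m) (hG : Conservative G (m + 1))
    (hlev : ∀ i, i + 3 ≤ 3 * m → ∃ v, l v = i) :
    ∃ b, l b + 4 = 3 * m ∧ ∀ v, 3 * m ≤ l v + 5 → l v + 3 ≤ 3 * m → v = b ∨ G.Adj b v := by
  obtain ⟨A, u, w, hA, hu, huw, hdom⟩ := extract hl m (by omega) hG (hlev 2 (by omega))
    (hlev 5 (by omega))
  obtain ⟨h1, h2⟩ := key hl m (by omega) A hA u w hu huw hdom hlev
  obtain ⟨z, hz⟩ := hlev (3 * m - 3) (by omega)
  obtain ⟨b, hb, h3, h4⟩ := dom_level hl (hdom z (by rintro rfl; omega))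
  have hb1 := h1 b hb
  refine ⟨b, by omega, ?_⟩
  intro v hv1 hv2
  rcases hdom v (by rintro rfl; omega) with h | ⟨a, ha, hav⟩
  · left
    exact h2 hm v h b hb (by omega) (by omega)
  · right
    have := hl _ _ hav.symm
    have hab := h2 hm a ha b hb (by omega) (by omega)
    rwa [hab] at hav

/-- A vertex dominating the last two levels cannot be missed precisely. -/
theorem no_miss {l : V → ℕ} (hl : Lip G l) (N : ℕ) (hz : ∃ z, l z = N)
    (b : V) (hb : l b < N) (hbv : ∀ v, N ≤ l v + 1 → v = b ∨ G.Adj b v) (T : Set V)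
    (h : Precise G T {b}ᶜ) : False := by
  have hb' : ¬ Dom G T b := by
    intro hd
    have := (h b).1 hd
    exact this rfl
  obtain ⟨z, hz⟩ := hz
  have hzb : z ≠ b := by rintro rfl; omega
  rcases (h z).2 hzb with hzT | ⟨a, ha, haz⟩
  · rcases hbv z (by omega) with h1 | h1
    · exact hzb h1
    · exact hb' (Or.inr ⟨z, hzT, h1.symm⟩)
  · have h1 := hl _ _ haz.symm
    rcases hbv a (by omega) with h2 | h2
    · exact hb' (Or.inl (h2 ▸ ha))
    · exact hb' (Or.inr ⟨a, ha, h2.symm⟩)

theorem walk_ivt {l : V → ℕ} (hl : Lip G l) {u v : V} (p : G.Walk u v) :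
    ∀ i, l u ≤ i → i ≤ l v → ∃ w, l w = i := by
  induction p with
  | nil => intro i h1 h2; exact ⟨_, le_antisymm h1 h2⟩
  | @cons u u' v h p ih =>
    intro i h1 h2
    rcases Nat.eq_or_lt_of_le h1 with h3 | h3
    · exact ⟨u, h3⟩
    · have := hl _ _ h.symm
      exact ih i (by omega) h2

theorem lip_dist (hG : G.Connected) (x : V) : Lip G (fun v => G.dist x v) := by
  intro u v huv
  have h1 := hG.dist_triangle (u := x) (v := v) (w := u)
  have h2 : G.dist v u = 1 := SimpleGraph.dist_eq_one_iff_adj.2 huv.symm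
  simp only
  omega

theorem levels_dist (hG : G.Connected) (x y : V) (i : ℕ) (hi : i ≤ G.dist x y) :
    ∃ v, G.dist x v = i := by
  obtain ⟨p⟩ := hG.preconnected x y
  exact walk_ivt (lip_dist hG x) p i (by simp) hi

theorem dist_le_of_conservative (hG : G.Connected) (m : ℕ) (hm : 4 ≤ m)
    (hc : Conservative G (m + 1)) (x y : V) : G.dist x y + 4 ≤ 3 * m := by
  by_contra hcon
  have hl := lip_dist hG x
  have hlev : ∀ i, i + 3 ≤ 3 * m → ∃ v, G.dist x v = i :=
    fun i hi => levels_dist hG x y i (by omega)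
  have hmax : ∀ v, G.dist x v + 3 ≤ 3 * m := by
    intro v
    by_contra hv
    exact no_level hl m (by omega) hc (fun i hi => levels_dist hG x v i (by omega))
  obtain ⟨b, hb1, hb2⟩ := exists_beta hl m hm hc hlev
  have hl' : Lip G (fun v => 3 * m - 3 - G.dist x v) := by
    intro u v huv
    have := hl _ _ huv.symm
    simp only at this ⊢
    omega
  have hlev' : ∀ i, i + 3 ≤ 3 * m → ∃ v, 3 * m - 3 - G.dist x v = i := by
    intro i hi
    obtain ⟨v, hv⟩ := hlev (3 * m - 3 - i) (by omega)
    exact ⟨v, by omega⟩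
  obtain ⟨a, ha1, ha2⟩ := exists_beta hl' m hm hc hlev'
  have hne : a ≠ b := by
    rintro rfl
    omega
  have hna : ¬ G.Adj a b := by
    intro h
    have := hl _ _ h.symm
    simp only at this
    omega
  obtain ⟨S, _, h | h⟩ := hc.2 a b hne hna
  · refine no_miss hl (3 * m - 3) (hlev (3 * m - 3) (by omega)) b (by omega)
      (fun v hv => hb2 v ?_ ?_) _ h
    · omega
    · exact hmax v
  · refine no_miss hl' (3 * m - 3) (hlev' (3 * m - 3) (by omega)) a (by omega)
      (fun v hv => ha2 v ?_ ?_) _ h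
    · omega
    · omega

theorem diam_le_of_dist_le {V : Type*} {G : SimpleGraph V} [Nonempty V] (d : ℕ)
    (h : ∀ x y, G.dist x y ≤ d) : G.diam ≤ d := by
  obtain ⟨u, v, huv⟩ := G.exists_dist_eq_diam
  rw [← huv]
  exact h u v

end Upper

/-! ### The graphs: a path with a four-cycle at its end -/

section Lower

/-- Edges (as ordered pairs) of the path `0,…,p` with the four-cycle `p, p+1, p+3, p+2`. -/
def hadj (p u v : ℕ) : Prop :=
  (v = u + 1 ∧ u ≤ p) ∨ (u = p ∧ v = p + 2) ∨ (u = p + 1 ∧ v = p + 3) ∨ (u = p + 2 ∧ v = p + 3)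

instance (p u v : ℕ) : Decidable (hadj p u v) := by unfold hadj; infer_instance

/-- The graph. -/
def H (p : ℕ) : SimpleGraph (Fin (p + 4)) where
  Adj u v := hadj p u v ∨ hadj p v u
  symm := by
    constructor
    intro u v h
    exact h.symm
  loopless := by
    constructor
    intro u h
    unfold hadj at h
    omega

instance (p : ℕ) : DecidableRel (H p).Adj := by
  intro u v
  unfold H
  infer_instance

theorem H_adj (p : ℕ) (u v : Fin (p + 4)) : (H p).Adj u v ↔ hadj p u v ∨ hadj p v u := Iff.rfl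

/-- Level function on `H p`. -/
def lev (p : ℕ) (v : Fin (p + 4)) : ℕ := if v.val ≤ p + 1 then v.val else v.val - 1

theorem lev_lip (p : ℕ) : Lip (H p) (lev p) := by
  intro u v h
  rw [H_adj] at h
  unfold hadj at h
  unfold lev
  split_ifs <;> omega

theorem H_connected (p : ℕ) : (H p).Connected := by
  have h0 : ∀ n (hn : n < p + 4), (H p).Reachable ⟨0, by omega⟩ ⟨n, hn⟩ := by
    intro n
    induction n using Nat.strong_induction_on with
    | _ n ih =>
      intro hn
      rcases Nat.lt_or_ge n 1 with h | h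
      · have : n = 0 := by omega
        subst this
        exact SimpleGraph.Reachable.refl _
      rcases Nat.lt_or_ge n (p + 2) with h1 | h1
      · refine (ih (n - 1) (by omega) (by omega)).trans (SimpleGraph.Adj.reachable ?_)
        rw [H_adj]
        left
        left
        simp only
        omega
      · refine (ih (n - 2) (by omega) (by omega)).trans (SimpleGraph.Adj.reachable ?_)
        rw [H_adj]
        left
        unfold hadj
        simp only
        omega
  have : Nonempty (Fin (p + 4)) := ⟨⟨0, by omega⟩⟩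
  exact SimpleGraph.Connected.mk (fun u v => (h0 u.1 u.2).symm.trans (h0 v.1 v.2))

theorem lev_le_dist {V : Type*} {G : SimpleGraph V} (hG : G.Connected) {l : V → ℕ} (hl : Lip G l)
    (x y : V) : l y ≤ l x + G.dist x y := by
  obtain ⟨p, hp⟩ := hG.exists_walk_length_eq_dist x y
  rw [← hp]
  clear hp
  induction p with
  | nil => simp
  | @cons u v w h p ih =>
    have := hl _ _ h.symm
    rw [SimpleGraph.Walk.length_cons]
    omega

theorem H_diam_ge (p : ℕ) : p + 2 ≤ (H p).diam := by
  have hc := H_connected p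
  have hne : Nonempty (Fin (p + 4)) := ⟨⟨0, by omega⟩⟩
  have h1 := lev_le_dist hc (lev_lip p) ⟨0, by omega⟩ ⟨p + 3, by omega⟩
  have h2 : (H p).dist ⟨0, by omega⟩ ⟨p + 3, by omega⟩ ≤ (H p).diam :=
    SimpleGraph.dist_le_diam (SimpleGraph.connected_iff_ediam_ne_top.1 hc)
  have h3 : lev p ⟨p + 3, by omega⟩ = p + 2 := by
    unfold lev
    rw [if_neg (by simp only; omega)]
    simp
  have h4 : lev p ⟨0, by omega⟩ = 0 := by
    unfold lev
    simp
  omega

/-- From an explicit list `f 0, …, f (m-1)` containing `x`, dominating everything but `w`, get a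
set `S` of exactly `m-1` vertices. -/
theorem witness (p m : ℕ) (hpm : m + 5 ≤ p + 4) (f : ℕ → ℕ) (x w : Fin (p + 4))
    (hf : ∀ t < m, f t < p + 4) (hx : ∃ t < m, f t = x)
    (hcov : ∀ v < p + 4, v ≠ w.val → ∃ t < m, v = f t ∨ hadj p (f t) v ∨ hadj p v (f t))
    (hmiss : ∀ t < m, f t ≠ w.val ∧ ¬ hadj p (f t) w.val ∧ ¬ hadj p w.val (f t)) :
    ∃ S : Finset (Fin (p + 4)), S.card = m - 1 ∧
      Precise (H p) (insert x (↑S : Set (Fin (p + 4)))) {w}ᶜ := by
  classical
  let A : Finset (Fin (p + 4)) := Finset.univ.filter fun v => ∃ t < m, f t = v.val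
  let B : Finset (Fin (p + 4)) := Finset.univ.filter fun v => v ≠ w ∧ ¬ (H p).Adj v w
  have hAB : A ⊆ B := by
    intro v hv
    simp only [A, B, Finset.mem_filter, Finset.mem_univ, true_and] at hv ⊢
    obtain ⟨t, ht, htv⟩ := hv
    obtain ⟨h1, h2, h3⟩ := hmiss t ht
    rw [htv] at h1 h2 h3
    refine ⟨fun h => h1 (by rw [h]), ?_⟩
    rintro (h | h)
    · exact h2 h
    · exact h3 h
  have hAcard : A.card ≤ m := by
    have : A.image (fun v => v.val) ⊆ (Finset.range m).image f := by
      intro n hn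
      obtain ⟨v, hv, rfl⟩ := Finset.mem_image.1 hn
      simp only [A, Finset.mem_filter, Finset.mem_univ, true_and] at hv
      obtain ⟨t, ht, htv⟩ := hv
      exact Finset.mem_image.2 ⟨t, Finset.mem_range.2 ht, htv⟩
    have h1 := Finset.card_le_card this
    rw [Finset.card_image_of_injective _ Fin.val_injective] at h1
    have h2 : ((Finset.range m).image f).card ≤ m := by
      simpa using Finset.card_image_le (s := Finset.range m) (f := f)
    omega
  have hBcard : m ≤ B.card := by
    have hcompl : (Finset.univ \ B).card ≤ 5 := by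
      have hsub : (Finset.univ \ B).image (fun v => v.val) ⊆ Finset.Icc (w.val - 2) (w.val + 2) := by
        intro n hn
        obtain ⟨v, hv, rfl⟩ := Finset.mem_image.1 hn
        simp only [B, Finset.mem_sdiff, Finset.mem_univ, true_and, Finset.mem_filter, not_and,
          not_not] at hv
        rw [Finset.mem_Icc]
        by_cases hvw : v = w
        · subst hvw
          omega
        · have := hv hvw
          rw [H_adj] at this
          unfold hadj at this
          omega
      have h1 := Finset.card_le_card hsub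
      rw [Finset.card_image_of_injective _ Fin.val_injective, Nat.card_Icc] at h1
      omega
    have h2 := Finset.card_sdiff_add_card_eq_card (Finset.subset_univ B)
    rw [Finset.card_univ, Fintype.card_fin] at h2
    omega
  obtain ⟨A', hAA', hA'B, hA'card⟩ := Finset.exists_subsuperset_card_eq hAB hAcard hBcard
  have hxA : x ∈ A := by
    simp only [A, Finset.mem_filter, Finset.mem_univ, true_and]
    exact hx
  have hxA' := hAA' hxA
  refine ⟨A'.erase x, by rw [Finset.card_erase_of_mem hxA', hA'card], ?_⟩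
  have hins : insert x (↑(A'.erase x) : Set (Fin (p + 4))) = (↑A' : Set (Fin (p + 4))) := by
    rw [← Finset.coe_insert, Finset.insert_erase hxA']
  rw [hins]
  intro v
  constructor
  · rintro (h | ⟨a, ha, hav⟩) hvw
    · have := hA'B (Finset.mem_coe.1 h)
      simp only [B, Finset.mem_filter, Finset.mem_univ, true_and] at this
      exact this.1 hvw
    · have := hA'B (Finset.mem_coe.1 ha)
      simp only [B, Finset.mem_filter, Finset.mem_univ, true_and] at this
      rw [Set.mem_singleton_iff] at hvw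
      rw [hvw] at hav
      exact this.2 hav
  · intro hvw
    have hvw' : v.val ≠ w.val := by
      intro h
      exact hvw (Fin.ext h)
    obtain ⟨t, ht, h⟩ := hcov v.val v.2 hvw'
    have hft := hf t ht
    have hmem : (⟨f t, hft⟩ : Fin (p + 4)) ∈ (↑A' : Set (Fin (p + 4))) := by
      apply Finset.mem_coe.2
      apply hAA'
      simp only [A, Finset.mem_filter, Finset.mem_univ, true_and]
      exact ⟨t, ht, rfl⟩
    rcases h with h | h
    · left
      have : v = ⟨f t, hft⟩ := Fin.ext h
      rw [this]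
      exact hmem
    · right
      exact ⟨⟨f t, hft⟩, hmem, h⟩

/-- There is a set `S` of `r+1` vertices such that `S ∪ {x}` precisely dominates `G - w`. -/
def Good (r : ℕ) (x w : Fin (3 * r + 4)) : Prop :=
  ∃ S : Finset (Fin (3 * r + 4)), S.card = r + 1 ∧
    Precise (H (3 * r)) (insert x (↑S : Set (Fin (3 * r + 4)))) {w}ᶜ

theorem good_1a (r : ℕ) (hr : 2 ≤ r) (x w : Fin (3 * r + 4)) (hw : w.val = 3 * r + 1)
    (hx : x.val < 3 * r ∨ x.val = 3 * r + 2) : Good r x w := by
  refine witness (3 * r) (r + 2) (by omega)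
    (fun t => if t < r then 3 * t + 1 else if t = r then 3 * r + 2 else x.val) x w ?_ ?_ ?_ ?_
  · intro t ht
    have := x.2
    split_ifs <;> omega
  · exact ⟨r + 1, by omega, by rw [if_neg (by omega), if_neg (by omega)]⟩
  · intro v hv hvw
    rcases Nat.lt_or_ge v (3 * r) with h | h
    · refine ⟨v / 3, by omega, ?_⟩
      simp only [hadj]
      split_ifs <;> omega
    · refine ⟨r, by omega, ?_⟩
      simp only [hadj]
      split_ifs <;> omega
  · intro t ht
    simp only [hadj]
    split_ifs <;> omega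

theorem good_1b (r : ℕ) (hr : 2 ≤ r) (x w : Fin (3 * r + 4)) (hw : w.val = 3 * r + 2)
    (hx : x.val < 3 * r ∨ x.val = 3 * r + 1) : Good r x w := by
  refine witness (3 * r) (r + 2) (by omega)
    (fun t => if t < r then 3 * t + 1 else if t = r then 3 * r + 1 else x.val) x w ?_ ?_ ?_ ?_
  · intro t ht
    have := x.2
    split_ifs <;> omega
  · exact ⟨r + 1, by omega, by rw [if_neg (by omega), if_neg (by omega)]⟩
  · intro v hv hvw
    rcases Nat.lt_or_ge v (3 * r) with h | h
    · refine ⟨v / 3, by omega, ?_⟩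
      simp only [hadj]
      split_ifs <;> omega
    · refine ⟨r, by omega, ?_⟩
      simp only [hadj]
      split_ifs <;> omega
  · intro t ht
    simp only [hadj]
    split_ifs <;> omega

theorem good_2 (r : ℕ) (hr : 2 ≤ r) (x w : Fin (3 * r + 4)) (hw : w.val = 3 * r + 3)
    (hx : x.val ≤ 3 * r) : Good r x w := by
  refine witness (3 * r) (r + 2) (by omega)
    (fun t => if t < r then 3 * t + 1 else if t = r then 3 * r else x.val) x w ?_ ?_ ?_ ?_
  · intro t ht
    have := x.2
    split_ifs <;> omega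
  · exact ⟨r + 1, by omega, by rw [if_neg (by omega), if_neg (by omega)]⟩
  · intro v hv hvw
    rcases Nat.lt_or_ge v (3 * r) with h | h
    · refine ⟨v / 3, by omega, ?_⟩
      simp only [hadj]
      split_ifs <;> omega
    · refine ⟨r, by omega, ?_⟩
      simp only [hadj]
      split_ifs <;> omega
  · intro t ht
    simp only [hadj]
    split_ifs <;> omega

theorem good_3 (r : ℕ) (hr : 2 ≤ r) (x w : Fin (3 * r + 4)) (q : ℕ) (hq : q ≤ r)
    (hw : w.val = 3 * q) (hxw : x.val ≠ w.val)
    (hna : ¬ hadj (3 * r) x.val w.val ∧ ¬ hadj (3 * r) w.val x.val) : Good r x w := by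
  unfold hadj at hna
  refine witness (3 * r) (r + 2) (by omega)
    (fun t => if t < q then 3 * t + 1 else if t < r then 3 * t + 2 else if t = r then 3 * r + 3
      else x.val) x w ?_ ?_ ?_ ?_
  · intro t ht
    have := x.2
    split_ifs <;> omega
  · exact ⟨r + 1, by omega,
      by rw [if_neg (by omega), if_neg (by omega), if_neg (by omega)]⟩
  · intro v hv hvw
    rcases Nat.lt_or_ge v (3 * q) with h | h
    · refine ⟨v / 3, by omega, ?_⟩
      simp only [hadj]
      split_ifs <;> omega
    rcases Nat.lt_or_ge v (3 * r + 1) with h1 | h1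
    · refine ⟨(v - 1) / 3, by omega, ?_⟩
      simp only [hadj]
      split_ifs <;> omega
    · refine ⟨r, by omega, ?_⟩
      simp only [hadj]
      split_ifs <;> omega
  · intro t ht
    simp only [hadj]
    split_ifs <;> omega

theorem good_4a (r : ℕ) (hr : 2 ≤ r) (x w : Fin (3 * r + 4)) (q s : ℕ) (hq : q < r) (hs : s < q)
    (hw : w.val = 3 * q + 1) (hx : x.val = 3 * s + 1) : Good r x w := by
  refine witness (3 * r) (r + 2) (by omega)
    (fun t => if t < q then 3 * t + 1 else if t = q then 3 * q - 1 else 3 * t) x w ?_ ?_ ?_ ?_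
  · intro t ht
    split_ifs <;> omega
  · refine ⟨s, by omega, ?_⟩
    rw [if_pos (by omega)]
    omega
  · intro v hv hvw
    rcases Nat.lt_or_ge v (3 * q) with h | h
    · refine ⟨v / 3, by omega, ?_⟩
      simp only [hadj]
      split_ifs <;> omega
    rcases Nat.lt_or_ge v (3 * q + 1) with h1 | h1
    · refine ⟨q, by omega, ?_⟩
      simp only [hadj]
      split_ifs <;> omega
    rcases Nat.lt_or_ge v (3 * r + 2) with h2 | h2
    · refine ⟨(v + 1) / 3, by omega, ?_⟩
      simp only [hadj]
      split_ifs <;> omega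
    rcases Nat.lt_or_ge v (3 * r + 3) with h3 | h3
    · refine ⟨r, by omega, ?_⟩
      simp only [hadj]
      split_ifs <;> omega
    · refine ⟨r + 1, by omega, ?_⟩
      simp only [hadj]
      split_ifs <;> omega
  · intro t ht
    simp only [hadj]
    split_ifs <;> omega

theorem good_4b (r : ℕ) (hr : 2 ≤ r) (x w : Fin (3 * r + 4)) (q s : ℕ) (hq : q < r) (hs : s < q)
    (hw : w.val = 3 * q + 1) (hx : x.val = 3 * s + 2) : Good r x w := by
  refine witness (3 * r) (r + 2) (by omega)
    (fun t => if t = 0 then 0 else if t ≤ q then 3 * t - 1 else 3 * t) x w ?_ ?_ ?_ ?_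
  · intro t ht
    split_ifs <;> first | contradiction | omega |
        (simp only [false_and, and_false, or_false, false_or, not_false_eq_true, and_true]; omega)
  · refine ⟨s + 1, by omega, ?_⟩
    rw [if_neg (by omega), if_pos (by omega)]
    omega
  · intro v hv hvw
    rcases Nat.lt_or_ge v 1 with h | h
    · refine ⟨0, by omega, ?_⟩
      unfold hadj
      split_ifs <;> first | contradiction | omega |
        (simp only [false_and, and_false, or_false, false_or, not_false_eq_true, and_true]; omega)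
    rcases Nat.lt_or_ge v (3 * q + 1) with h1 | h1
    · refine ⟨(v + 2) / 3, by omega, ?_⟩
      unfold hadj
      split_ifs <;> first | contradiction | omega |
        (simp only [false_and, and_false, or_false, false_or, not_false_eq_true, and_true]; omega)
    rcases Nat.lt_or_ge v (3 * r + 2) with h2 | h2
    · refine ⟨(v + 1) / 3, by omega, ?_⟩
      unfold hadj
      split_ifs <;> first | contradiction | omega |
        (simp only [false_and, and_false, or_false, false_or, not_false_eq_true, and_true]; omega)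
    rcases Nat.lt_or_ge v (3 * r + 3) with h3 | h3
    · refine ⟨r, by omega, ?_⟩
      unfold hadj
      split_ifs <;> first | contradiction | omega |
        (simp only [false_and, and_false, or_false, false_or, not_false_eq_true, and_true]; omega)
    · refine ⟨r + 1, by omega, ?_⟩
      unfold hadj
      split_ifs <;> first | contradiction | omega |
        (simp only [false_and, and_false, or_false, false_or, not_false_eq_true, and_true]; omega)
  · intro t ht
    unfold hadj
    split_ifs <;> first | contradiction | omega |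
        (simp only [false_and, and_false, or_false, false_or, not_false_eq_true, and_true]; omega)

theorem good_5 (r : ℕ) (hr : 2 ≤ r) (x w : Fin (3 * r + 4)) (q s : ℕ) (hq : q < r) (hs : s < q)
    (hw : w.val = 3 * q + 2) (hx : x.val = 3 * s + 1) : Good r x w := by
  refine witness (3 * r) (r + 2) (by omega)
    (fun t => if t = q then 3 * q else if t ≤ r then 3 * t + 1 else 3 * r + 3) x w ?_ ?_ ?_ ?_
  · intro t ht
    split_ifs <;> omega
  · refine ⟨s, by omega, ?_⟩
    rw [if_neg (by omega), if_pos (by omega)]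
    omega
  · intro v hv hvw
    rcases Nat.lt_or_ge v (3 * r + 2) with h | h
    · refine ⟨v / 3, by omega, ?_⟩
      simp only [hadj]
      split_ifs <;> omega
    · refine ⟨r + 1, by omega, ?_⟩
      simp only [hadj]
      split_ifs <;> omega
  · intro t ht
    simp only [hadj]
    split_ifs <;> omega

theorem good_6 (r : ℕ) (hr : 2 ≤ r) (x w : Fin (3 * r + 4)) (s u : ℕ) (hu : u < r) (hs : s < u)
    (hw : w.val = 3 * s + 2) (hx : x.val = 3 * u + 2) : Good r x w := by
  refine witness (3 * r) (r + 2) (by omega)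
    (fun t => if t < s then 3 * t + 1 else if t = s then 3 * s else if t = s + 1 then 3 * s + 4
      else if t ≤ r then 3 * t - 1 else 3 * r + 3) x w ?_ ?_ ?_ ?_
  · intro t ht
    split_ifs <;> omega
  · refine ⟨u + 1, by omega, ?_⟩
    rw [if_neg (by omega), if_neg (by omega), if_neg (by omega), if_pos (by omega)]
    omega
  · intro v hv hvw
    rcases Nat.lt_or_ge v (3 * s + 2) with h | h
    · refine ⟨v / 3, by omega, ?_⟩
      simp only [hadj]
      split_ifs <;> omega
    rcases Nat.lt_or_ge v (3 * s + 6) with h1 | h1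
    · refine ⟨s + 1, by omega, ?_⟩
      simp only [hadj]
      split_ifs <;> omega
    rcases Nat.lt_or_ge v (3 * r + 1) with h2 | h2
    · refine ⟨(v + 2) / 3, by omega, ?_⟩
      simp only [hadj]
      split_ifs <;> omega
    · refine ⟨r + 1, by omega, ?_⟩
      simp only [hadj]
      split_ifs <;> omega
  · intro t ht
    simp only [hadj]
    split_ifs <;> omega

theorem good_pair (r : ℕ) (hr : 2 ≤ r) (x y : Fin (3 * r + 4)) (hxy : x.val < y.val)
    (hna : ¬ (H (3 * r)).Adj x y) : Good r x y ∨ Good r y x := by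
  rw [H_adj] at hna
  have hna' := hna
  unfold hadj at hna'
  have hy4 := y.2
  rcases Nat.lt_or_ge (3 * r) y.val with hy | hy
  · left
    rcases Nat.lt_or_ge y.val (3 * r + 2) with h1 | h1
    · exact good_1a r hr x y (by omega) (by omega)
    rcases Nat.lt_or_ge y.val (3 * r + 3) with h2 | h2
    · exact good_1b r hr x y (by omega) (by omega)
    · exact good_2 r hr x y (by omega) (by omega)
  · have hy3 : y.val % 3 = 0 ∨ y.val % 3 = 1 ∨ y.val % 3 = 2 := by omega
    have hx3 : x.val % 3 = 0 ∨ x.val % 3 = 1 ∨ x.val % 3 = 2 := by omega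
    rcases hx3 with hx3 | hx3 | hx3
    · right
      exact good_3 r hr y x (x.val / 3) (by omega) (by omega) (by omega)
        ⟨fun h => hna (Or.inr h), fun h => hna (Or.inl h)⟩
    · left
      rcases hy3 with hy3 | hy3 | hy3
      · exact good_3 r hr x y (y.val / 3) (by omega) (by omega) (by omega)
          ⟨fun h => hna (Or.inl h), fun h => hna (Or.inr h)⟩
      · exact good_4a r hr x y (y.val / 3) (x.val / 3) (by omega) (by omega) (by omega) (by omega)
      · exact good_5 r hr x y (y.val / 3) (x.val / 3) (by omega) (by omega) (by omega) (by omega)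
    · rcases hy3 with hy3 | hy3 | hy3
      · left
        exact good_3 r hr x y (y.val / 3) (by omega) (by omega) (by omega)
          ⟨fun h => hna (Or.inl h), fun h => hna (Or.inr h)⟩
      · left
        exact good_4b r hr x y (y.val / 3) (x.val / 3) (by omega) (by omega) (by omega) (by omega)
      · right
        exact good_6 r hr y x (x.val / 3) (y.val / 3) (by omega) (by omega) (by omega) (by omega)

theorem dom_lower (r : ℕ) (A : Finset (Fin (3 * r + 4)))
    (hA : ∀ v, Dom (H (3 * r)) (↑A) v) : r + 2 ≤ A.card := by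
  classical
  have hdom : ∀ n (hn : n < 3 * r + 4), ∃ a ∈ A, a.val = n ∨ hadj (3 * r) a.val n ∨
      hadj (3 * r) n a.val := by
    intro n hn
    rcases hA ⟨n, hn⟩ with h | ⟨a, ha, h⟩
    · exact ⟨⟨n, hn⟩, Finset.mem_coe.1 h, Or.inl rfl⟩
    · exact ⟨a, Finset.mem_coe.1 ha, Or.inr h⟩
  have htwo : ∃ a ∈ A, ∃ b ∈ A, a ≠ b ∧ 3 * r ≤ a.val + 1 ∧ 3 * r ≤ b.val + 1 := by
    obtain ⟨a, ha, h1⟩ := hdom (3 * r + 3) (by omega)
    unfold hadj at h1
    have ha4 := a.2
    rcases Nat.lt_or_ge a.val (3 * r + 2) with h2 | h2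
    · obtain ⟨b, hb, h3⟩ := hdom (3 * r + 2) (by omega)
      unfold hadj at h3
      have hb4 := b.2
      refine ⟨a, ha, b, hb, ?_, by omega, by omega⟩
      rintro rfl
      omega
    rcases Nat.lt_or_ge a.val (3 * r + 3) with h4 | h4
    · obtain ⟨b, hb, h3⟩ := hdom (3 * r + 1) (by omega)
      unfold hadj at h3
      have hb4 := b.2
      refine ⟨a, ha, b, hb, ?_, by omega, by omega⟩
      rintro rfl
      omega
    · obtain ⟨b, hb, h3⟩ := hdom (3 * r) (by omega)
      unfold hadj at h3
      have hb4 := b.2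
      refine ⟨a, ha, b, hb, ?_, by omega, by omega⟩
      rintro rfl
      omega
  obtain ⟨a, ha, b, hb, hab, ha1, hb1⟩ := htwo
  let h : Fin (3 * r + 4) → ℕ := fun v => if v.val + 2 ≤ 3 * r then (v.val + 1) / 3 else r
  have hsub : Finset.range (r + 1) ⊆ (A.erase a).image h := by
    intro t ht
    rw [Finset.mem_range] at ht
    rw [Finset.mem_image]
    rcases Nat.lt_or_ge t r with h1 | h1
    · obtain ⟨c, hc, h2⟩ := hdom (3 * t) (by omega)
      unfold hadj at h2
      have hc4 := c.2
      refine ⟨c, Finset.mem_erase.2 ⟨?_, hc⟩, ?_⟩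
      · rintro rfl
        omega
      · simp only [h]
        split_ifs <;> omega
    · refine ⟨b, Finset.mem_erase.2 ⟨hab.symm, hb⟩, ?_⟩
      simp only [h]
      split_ifs <;> omega
  have h1 := Finset.card_le_card hsub
  rw [Finset.card_range] at h1
  have h2 : ((A.erase a).image h).card ≤ (A.erase a).card := Finset.card_image_le
  rw [Finset.card_erase_of_mem ha] at h2
  have : 0 < A.card := Finset.card_pos.2 ⟨a, ha⟩
  omega

theorem dom_upper (r : ℕ) : ∃ A : Finset (Fin (3 * r + 4)), A.card = r + 2 ∧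
    ∀ v, Dom (H (3 * r)) (↑A) v := by
  classical
  let A : Finset (Fin (3 * r + 4)) := Finset.univ.filter fun v =>
    (v.val < 3 * r ∧ v.val % 3 = 1) ∨ v.val = 3 * r ∨ v.val = 3 * r + 3
  have hdom : ∀ v, Dom (H (3 * r)) (↑A) v := by
    intro v
    have hv := v.2
    have hmem : ∀ n (hn : n < 3 * r + 4), ((n < 3 * r ∧ n % 3 = 1) ∨ n = 3 * r ∨ n = 3 * r + 3) →
        (n = v.val ∨ hadj (3 * r) n v.val ∨ hadj (3 * r) v.val n) → Dom (H (3 * r)) (↑A) v := by
      intro n hn h1 h2
      have h3 : (⟨n, hn⟩ : Fin (3 * r + 4)) ∈ (↑A : Set (Fin (3 * r + 4))) := by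
        apply Finset.mem_coe.2
        simp only [A, Finset.mem_filter, Finset.mem_univ, true_and]
        exact h1
      rcases h2 with h2 | h2
      · left
        have : v = ⟨n, hn⟩ := Fin.ext h2.symm
        rw [this]
        exact h3
      · right
        exact ⟨⟨n, hn⟩, h3, h2⟩
    rcases Nat.lt_or_ge v.val (3 * r) with h | h
    · exact hmem (3 * (v.val / 3) + 1) (by omega) (by omega) (by unfold hadj; omega)
    rcases Nat.lt_or_ge v.val (3 * r + 1) with h1 | h1
    · exact hmem (3 * r) (by omega) (by omega) (by unfold hadj; omega)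
    · exact hmem (3 * r + 3) (by omega) (by omega) (by unfold hadj; omega)
  refine ⟨A, le_antisymm ?_ (dom_lower r A hdom), hdom⟩
  have hsub : A.image (fun v => v.val) ⊆
      (Finset.range (r + 2)).image (fun t => if t < r then 3 * t + 1 else if t = r then 3 * r
        else 3 * r + 3) := by
    intro n hn
    obtain ⟨v, hv, rfl⟩ := Finset.mem_image.1 hn
    simp only [A, Finset.mem_filter, Finset.mem_univ, true_and] at hv
    rw [Finset.mem_image]
    rcases hv with hv | hv | hv
    · refine ⟨v.val / 3, Finset.mem_range.2 (by omega), ?_⟩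
      split_ifs <;> omega
    · refine ⟨r, Finset.mem_range.2 (by omega), ?_⟩
      split_ifs <;> omega
    · refine ⟨r + 1, Finset.mem_range.2 (by omega), ?_⟩
      split_ifs <;> omega
  have h1 := Finset.card_le_card hsub
  rw [Finset.card_image_of_injective _ Fin.val_injective] at h1
  have h2 := h1.trans Finset.card_image_le
  simpa using h2

theorem H_conservative (r : ℕ) (hr : 2 ≤ r) : Conservative (H (3 * r)) (r + 3) := by
  refine ⟨⟨dom_upper r, ?_⟩, ?_⟩
  · rintro n ⟨A, rfl, hA⟩
    exact dom_lower r A hA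
  · intro x y hxy hna
    rcases Nat.lt_or_ge x.val y.val with h | h
    · rcases good_pair r hr x y h hna with ⟨S, hS, hp⟩ | ⟨S, hS, hp⟩
      · exact ⟨S, hS, Or.inl hp⟩
      · exact ⟨S, hS, Or.inr hp⟩
    · have hne : y.val ≠ x.val := fun h' => hxy (Fin.ext h'.symm)
      have hna' : ¬ (H (3 * r)).Adj y x := fun h' => hna h'.symm
      rcases good_pair r hr y x (by omega) hna' with ⟨S, hS, hp⟩ | ⟨S, hS, hp⟩
      · exact ⟨S, hS, Or.inr hp⟩
      · exact ⟨S, hS, Or.inl hp⟩

end Lower

/-! ### The small cases -/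

section Small

theorem subset_pair {α : Type*} [DecidableEq α] [Nonempty α] (A : Finset α) (h : A.card ≤ 2) :
    ∃ a b, ∀ c ∈ A, c = a ∨ c = b := by
  have h3 : A.card = 0 ∨ A.card = 1 ∨ A.card = 2 := by omega
  rcases h3 with h | h | h
  · rw [Finset.card_eq_zero] at h
    subst h
    obtain ⟨a⟩ := ‹Nonempty α›
    exact ⟨a, a, fun c hc => absurd hc (Finset.notMem_empty c)⟩
  · obtain ⟨a, rfl⟩ := Finset.card_eq_one.1 h
    exact ⟨a, a, fun c hc => Or.inl (Finset.mem_singleton.1 hc)⟩
  · obtain ⟨a, b, _, rfl⟩ := Finset.card_eq_two.1 h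
    refine ⟨a, b, fun c hc => ?_⟩
    simpa using hc

theorem H4_lower : ∀ a b : Fin 8, ∃ v : Fin 8, ¬ (v = a ∨ v = b ∨ (H 4).Adj a v ∨
    (H 4).Adj b v) := by
  decide +kernel

/-- `{x, a, b}` precisely dominates everything but `y` in `H 4`. -/
def PD4 (x a b y : Fin 8) : Prop :=
  ∀ v : Fin 8, (v = x ∨ v = a ∨ v = b ∨ (H 4).Adj x v ∨ (H 4).Adj a v ∨ (H 4).Adj b v) ↔ v ≠ y

instance (x a b y : Fin 8) : Decidable (PD4 x a b y) := by unfold PD4; infer_instance

theorem H4_pairs : ∀ x y : Fin 8, x ≠ y → ¬ (H 4).Adj x y → ∃ a b : Fin 8, a ≠ b ∧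
    (PD4 x a b y ∨ PD4 y a b x) := by
  decide +kernel

theorem H2_lower : ∀ a : Fin 6, ∃ v : Fin 6, ¬ (v = a ∨ (H 2).Adj a v) := by
  decide +kernel

theorem H2_pairs : ∀ x y : Fin 6, x ≠ y → ¬ (H 2).Adj x y → ∃ a : Fin 6,
    ((∀ v : Fin 6, (v = x ∨ v = a ∨ (H 2).Adj x v ∨ (H 2).Adj a v) ↔ v ≠ y)
    ∨ (∀ v : Fin 6, (v = y ∨ v = a ∨ (H 2).Adj y v ∨ (H 2).Adj a v) ↔ v ≠ x)) := by
  decide +kernel

theorem H4_conservative : Conservative (H 4) 4 := by
  classical
  refine ⟨⟨⟨{1, 4, 7}, by decide, ?_⟩, ?_⟩, ?_⟩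
  · have h : ∀ v : Fin 8, (v = 1 ∨ v = 4 ∨ v = 7) ∨ ((H 4).Adj 1 v ∨ (H 4).Adj 4 v ∨
        (H 4).Adj 7 v) := by decide +kernel
    intro v
    rcases h v with h | h | h | h
    · left
      simpa using h
    · exact Or.inr ⟨1, by simp, h⟩
    · exact Or.inr ⟨4, by simp, h⟩
    · exact Or.inr ⟨7, by simp, h⟩
  · rintro n ⟨A, rfl, hA⟩
    by_contra hcon
    have hne : Nonempty (Fin (4 + 4)) := ⟨0⟩
    obtain ⟨a, b, hab⟩ := subset_pair A (by omega)
    obtain ⟨v, hv⟩ := H4_lower a b
    apply hv
    rcases hA v with h | ⟨c, hc, h⟩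
    · rcases hab v (Finset.mem_coe.1 h) with h | h
      · exact Or.inl h
      · exact Or.inr (Or.inl h)
    · rcases hab c (Finset.mem_coe.1 hc) with h' | h'
      · exact Or.inr (Or.inr (Or.inl (h' ▸ h)))
      · exact Or.inr (Or.inr (Or.inr (h' ▸ h)))
  · intro x y hxy hna
    obtain ⟨a, b, hab, h⟩ := H4_pairs x y hxy hna
    unfold PD4 at h
    refine ⟨{a, b}, Finset.card_pair hab, ?_⟩
    rcases h with h | h
    · left
      intro v
      rw [Set.mem_compl_iff, Set.mem_singleton_iff, ← ne_eq, ← h v]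
      unfold Dom
      simp only [Finset.coe_insert, Finset.coe_singleton, Set.mem_insert_iff,
        Set.mem_singleton_iff, exists_eq_or_imp, exists_eq_left]
      tauto
    · right
      intro v
      rw [Set.mem_compl_iff, Set.mem_singleton_iff, ← ne_eq, ← h v]
      unfold Dom
      simp only [Finset.coe_insert, Finset.coe_singleton, Set.mem_insert_iff,
        Set.mem_singleton_iff, exists_eq_or_imp, exists_eq_left]
      tauto

theorem H2_conservative : Conservative (H 2) 3 := by
  classical
  refine ⟨⟨⟨{1, 5}, by decide, ?_⟩, ?_⟩, ?_⟩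
  · have h : ∀ v : Fin 6, (v = 1 ∨ v = 5) ∨ ((H 2).Adj 1 v ∨ (H 2).Adj 5 v) := by
      decide +kernel
    intro v
    rcases h v with h | h | h
    · left
      simpa using h
    · exact Or.inr ⟨1, by simp, h⟩
    · exact Or.inr ⟨5, by simp, h⟩
  · rintro n ⟨A, rfl, hA⟩
    by_contra hcon
    have hne : Nonempty (Fin (2 + 4)) := ⟨0⟩
    obtain ⟨a, ha⟩ := Finset.card_le_one_iff_subset_singleton.1 (show A.card ≤ 1 by omega)
    obtain ⟨v, hv⟩ := H2_lower a
    apply hv
    rcases hA v with h | ⟨c, hc, h⟩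
    · exact Or.inl (Finset.mem_singleton.1 (ha (Finset.mem_coe.1 h)))
    · have h' := Finset.mem_singleton.1 (ha (Finset.mem_coe.1 hc))
      exact Or.inr (h' ▸ h)
  · intro x y hxy hna
    obtain ⟨a, h⟩ := H2_pairs x y hxy hna
    refine ⟨{a}, Finset.card_singleton a, ?_⟩
    rcases h with h | h
    · left
      intro v
      rw [Set.mem_compl_iff, Set.mem_singleton_iff, ← ne_eq, ← h v]
      unfold Dom
      simp only [Finset.coe_singleton, Set.mem_insert_iff,
        Set.mem_singleton_iff, exists_eq_or_imp, exists_eq_left]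
      tauto
    · right
      intro v
      rw [Set.mem_compl_iff, Set.mem_singleton_iff, ← ne_eq, ← h v]
      unfold Dom
      simp only [Finset.coe_singleton, Set.mem_insert_iff,
        Set.mem_singleton_iff, exists_eq_or_imp, exists_eq_left]
      tauto

/-- The path on three vertices. -/
def P3 : SimpleGraph (Fin 3) where
  Adj u v := u.val + 1 = v.val ∨ v.val + 1 = u.val
  symm := by
    constructor
    intro u v h
    exact h.symm
  loopless := by
    constructor
    intro u h
    omega

instance : DecidableRel P3.Adj := by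
  intro u v
  unfold P3
  infer_instance

theorem P3_connected : P3.Connected := by
  have h1 : ∀ v : Fin 3, P3.Reachable 1 v := by
    intro v
    have h : v = 1 ∨ P3.Adj 1 v := by revert v; decide
    rcases h with rfl | h
    · exact SimpleGraph.Reachable.refl _
    · exact h.reachable
  exact SimpleGraph.Connected.mk (fun u v => (h1 u).symm.trans (h1 v))

theorem P3_conservative : Conservative P3 2 := by
  classical
  refine ⟨⟨⟨{1}, rfl, ?_⟩, ?_⟩, ?_⟩
  · intro v
    have h : v = 1 ∨ P3.Adj 1 v := by revert v; decide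
    rcases h with h | h
    · left
      simpa using h
    · exact Or.inr ⟨1, by simp, h⟩
  · rintro n ⟨A, rfl, hA⟩
    rcases hA 0 with h | ⟨a, ha, _⟩
    · exact Finset.card_pos.2 ⟨0, Finset.mem_coe.1 h⟩
    · exact Finset.card_pos.2 ⟨a, Finset.mem_coe.1 ha⟩
  · intro x y hxy hna
    refine ⟨∅, rfl, Or.inl ?_⟩
    intro v
    have h : ∀ x y v : Fin 3, x ≠ y → ¬ P3.Adj x y → ((v = x ∨ P3.Adj x v) ↔ v ≠ y) := by decide
    rw [Set.mem_compl_iff, Set.mem_singleton_iff, ← ne_eq, ← h x y v hxy hna]
    unfold Dom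
    simp

theorem dist_le_two {V : Type*} {G : SimpleGraph V} (hG : G.Connected) (hc : Conservative G 2)
    (x y : V) : G.dist x y ≤ 2 := by
  obtain ⟨A, hA, hdom⟩ := hc.1.1
  obtain ⟨c, hcA⟩ := Finset.card_eq_one.1 hA
  have h1 : ∀ v, G.dist c v ≤ 1 := by
    intro v
    rcases hdom v with h | ⟨a, ha, h⟩
    · rw [hcA] at h
      have : v = c := by simpa using h
      rw [this, SimpleGraph.dist_self]
      omega
    · rw [hcA] at ha
      have : a = c := by simpa using ha
      rw [this] at h
      rw [SimpleGraph.dist_eq_one_iff_adj.2 h]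
  have h2 := hG.dist_triangle (u := x) (v := c) (w := y)
  have h3 := h1 x
  have h4 := h1 y
  rw [SimpleGraph.dist_comm] at h3
  omega

theorem P3_diam_ge : 2 ≤ P3.diam := by
  have hl : Lip P3 (fun v => v.val) := by
    intro u v h
    have : u.val + 1 = v.val ∨ v.val + 1 = u.val := h
    simp only
    omega
  have h1 := lev_le_dist P3_connected hl 0 2
  have h2 : P3.dist 0 2 ≤ P3.diam :=
    SimpleGraph.dist_le_diam (SimpleGraph.connected_iff_ediam_ne_top.1 P3_connected)
  simp only [Fin.val_zero] at h1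
  have h3 : ((2 : Fin 3) : ℕ) = 2 := rfl
  omega

end Small

/-- `D(2) = 2`, `D(3) = 4`, `D(4) = 6`, and `D(k) = 3k - 7` for every `k ≥ 5`. -/
theorem result : IsMaxDiam 2 2 ∧ IsMaxDiam 3 4 ∧ IsMaxDiam 4 6 ∧
    ∀ k, 5 ≤ k → IsMaxDiam k (3 * k - 7) := by
  refine ⟨⟨⟨Fin 3, inferInstance, P3, P3_connected, P3_conservative, ?_⟩, ?_⟩,
    ⟨⟨Fin (2 + 4), inferInstance, H 2, H_connected 2, H2_conservative, ?_⟩, ?_⟩,
    ⟨⟨Fin (4 + 4), inferInstance, H 4, H_connected 4, H4_conservative, ?_⟩, ?_⟩, ?_⟩
  · refine le_antisymm (diam_le_of_dist_le 2 (dist_le_two P3_connected P3_conservative)) P3_diam_ge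
  · rintro d ⟨V, _, G, hG, hc, rfl⟩
    have := hG.nonempty
    exact diam_le_of_dist_le 2 (dist_le_two hG hc)
  · have h4 : ∀ x y, (H 2).dist x y ≤ 4 := by
      intro x y
      by_contra hcon
      exact no_level_two (lip_dist (H_connected 2) x) H2_conservative
        (fun i hi => levels_dist (H_connected 2) x y i (by omega))
    have hne : Nonempty (Fin (2 + 4)) := ⟨0⟩
    exact le_antisymm (diam_le_of_dist_le 4 h4) (H_diam_ge 2)
  · rintro d ⟨V, _, G, hG, hc, rfl⟩
    have := hG.nonempty
    refine diam_le_of_dist_le 4 (fun x y => ?_)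
    by_contra hcon
    exact no_level_two (lip_dist hG x) hc (fun i hi => levels_dist hG x y i (by omega))
  · have h4 : ∀ x y, (H 4).dist x y ≤ 6 := by
      intro x y
      by_contra hcon
      exact no_level (lip_dist (H_connected 4) x) 3 le_rfl H4_conservative
        (fun i hi => levels_dist (H_connected 4) x y i (by omega))
    have hne : Nonempty (Fin (4 + 4)) := ⟨0⟩
    exact le_antisymm (diam_le_of_dist_le 6 h4) (H_diam_ge 4)
  · rintro d ⟨V, _, G, hG, hc, rfl⟩
    have := hG.nonempty
    refine diam_le_of_dist_le 6 (fun x y => ?_)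
    by_contra hcon
    exact no_level (lip_dist hG x) 3 le_rfl hc (fun i hi => levels_dist hG x y i (by omega))
  · intro k hk
    have hupper : ∀ {V : Type} {G : SimpleGraph V}, G.Connected → Conservative G k →
        G.diam ≤ 3 * k - 7 := by
      intro V G hG hc
      have := hG.nonempty
      refine diam_le_of_dist_le _ (fun x y => ?_)
      have hk' : k = (k - 1) + 1 := by omega
      rw [hk'] at hc
      have := dist_le_of_conservative hG (k - 1) (by omega) hc x y
      omega
    have hcons : Conservative (H (3 * (k - 3))) k := by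
      have := H_conservative (k - 3) (by omega)
      have hk' : k - 3 + 3 = k := by omega
      rwa [hk'] at this
    refine ⟨⟨Fin (3 * (k - 3) + 4), inferInstance, H (3 * (k - 3)), H_connected _, hcons, ?_⟩, ?_⟩
    · refine le_antisymm (hupper (H_connected _) hcons) ?_
      have := H_diam_ge (3 * (k - 3))
      omega
    · rintro d ⟨V, _, G, hG, hc, rfl⟩
      exact hupper hG hc

end Pool.Agent.Results.MP_2cf482_co.MaxDiameter
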